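import Pool.Agent.Helper99_LC.Main

/-!
MP_b3b1c6_an: sofic entropy values of free ergodic actions of locally compact sofic groups.
-/

set_option autoImplicit false

open MeasureTheory Set Filter Topology
open scoped ENNReal Topology

namespace Pool.Agent.Results.MP_b3b1c6_an.Disproof

open Pool.Agent.Helper99_LC

lemma exists_rightHaar : ∃ lam : Measure (LG F8), IsRightHaar lam := by
  refine ⟨(Measure.haar : Measure (LG F8)).inv, ?_, ?_, ?_⟩
  · intro g
    exact map_mul_right_eq_self _ g
  · intro K hK
    exact hK.measure_lt_top
  · intro U hU hne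
    exact hU.measure_pos _ hne

/-- The answer to the question is negative: there is a noncompact locally compact second
countable group with a sofic approximation whose base entropy is `-∞`, while no real number is
the entropy of an essentially free action. -/
theorem result :
    ∃ (G : Type) (_ : Group G) (_ : TopologicalSpace G) (_ : MeasurableSpace G),
      IsTopologicalGroup G ∧ LocallyCompactSpace G ∧ SecondCountableTopology G ∧ T2Space G ∧
      BorelSpace G ∧ NoncompactSpace G ∧ (∃ lam : Measure G, IsRightHaar lam) ∧
      ∀ lam : Measure G, IsRightHaar lam → ∃ S : SoficApprox G lam,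
        (∃ A : PmpAction G, A.EssFree ∧ A.Ergodic ∧ entropy S A = ⊥) ∧
        (∀ A : PmpAction G, A.EssFree → entropy S A = ⊥ ∨ entropy S A = ⊤) ∧
        ∀ t : ℝ, baseEntropy S ≤ (t : EReal) ∧
          ∀ A : PmpAction G, A.EssFree → entropy S A ≠ (t : EReal) := by
  have hinf : Infinite F8 := inferInstance
  refine ⟨LG F8, inferInstance, inferInstance, inferInstance, inferInstance, inferInstance,
    inferInstance, inferInstance, inferInstance, LG.noncompact, exists_rightHaar, ?_⟩
  intro lam h
  obtain ⟨S, ⟨A, hA1, hA2, hA3⟩, hgap⟩ := main_thm lam h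
  refine ⟨S, ⟨A, hA1, hA2, hA3⟩, hgap, ?_⟩
  intro t
  constructor
  · refine le_trans (iInf_le_of_le A (iInf_le_of_le hA1 le_rfl)) ?_
    rw [hA3]
    exact bot_le
  · intro A' hA' h'
    rcases hgap A' hA' with h1 | h1
    · rw [h1] at h'
      exact EReal.bot_ne_coe t h'
    · rw [h1] at h'
      exact EReal.coe_ne_top t h'.symm

end Pool.Agent.Results.MP_b3b1c6_an.Disproof
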